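import Pool.Agent.H4.NM.Final

/-!
# For every `d ≥ 2`, `F_q` has no maximiser for `q > 1` close to `1` (MP_898b17_an)

Definitions: `Pool/Agent/H4/NM/Defs.lean` (`IsTest`, `H10`, `lam`, `IsTorsion`, `torsion`, `Fq`,
`Admissible`). The torsion function exists and is unique (`Pool.Agent.H4.NM.final_torsion`,
`IsTorsion.unique`), so that `torsion` is the torsional rigidity.
-/

namespace Pool.Agent.Results.MP_898b17_an.NoMaximiserEveryDim

open Pool.Agent.H4.NM

/-- For every `d ≥ 2` there is `q₀ > 1` such that for all `1 < q < q₀`: the values of `F_q` on the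
admissible subsets of `ℝ^d` are bounded above, and no admissible set attains their supremum. -/
theorem result : ∀ d : ℕ, 2 ≤ d → ∃ q₀ : ℝ, 1 < q₀ ∧ ∀ q : ℝ, 1 < q → q < q₀ →
    BddAbove {t : ℝ | ∃ Ω : Set (EuclideanSpace ℝ (Fin d)), Admissible Ω ∧ t = Fq d q Ω} ∧
    ∀ Ω : Set (EuclideanSpace ℝ (Fin d)), Admissible Ω →
      Fq d q Ω <
        sSup {t : ℝ | ∃ Ω' : Set (EuclideanSpace ℝ (Fin d)), Admissible Ω' ∧ t = Fq d q Ω'} :=
  fun d hd => final d hd

end Pool.Agent.Results.MP_898b17_an.NoMaximiserEveryDim
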